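import Mathlib
import Pool.Agent.H466R2.LVAsym
import Pool.Agent.H466R2.LVLevel

/-!
# The loss `T^ε` in Q1 of MP_a93a41_nt cannot be replaced by `exp(c log T / log log T)`

For every `η > 0` and `A` there is `c > 0` such that, with `G(T) = exp(c log T / log log T)` in
place of `T^ε` in both places of Q1, the large values bound fails for every constant `C`, for all
large `N` and for all `T` in `[N^(1+η), N^A]`.
-/

set_option autoImplicit false

namespace Pool.Agent.Results.MP_a93a41_nt.SharpLoss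

open Filter

theorem result :
    ∀ η A : ℝ, 0 < η → ∃ c : ℝ, 0 < c ∧ ∀ C : ℝ, ∃ N₀ : ℕ, ∀ N : ℕ, N₀ ≤ N →
      ∀ T : ℝ, (N : ℝ) ^ (1 + η) ≤ T → T ≤ (N : ℝ) ^ A →
        ∃ (V : ℝ) (a : ℕ → ℂ) (S : Finset ℝ),
          0 < V ∧ (∀ n, ‖a n‖ ≤ 1) ∧
          (N : ℝ) * Real.exp (c * Real.log T / Real.log (Real.log T)) ≤ V ^ 2 ∧
          (∀ t ∈ S, 0 ≤ t ∧ t ≤ T ∧
            V ≤ ‖∑ n ∈ Finset.Icc 1 N, a n * (n : ℂ) ^ (-((t : ℂ) * Complex.I))‖) ∧
          (∀ t ∈ S, ∀ u ∈ S, t ≠ u → 1 ≤ |t - u|) ∧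
          C * (N : ℝ) ^ 2 / V ^ 2 * Real.exp (c * Real.log T / Real.log (Real.log T)) <
            (S.card : ℝ) := by
  classical
  intro η A hη
  obtain ⟨N₁, hN₁⟩ := Pool.Agent.H466R2.LVAsym.packaged
  set A' : ℝ := max A 1 with hA'
  have hA'1 : 1 ≤ A' := le_max_right _ _
  have hA'A : A ≤ A' := le_max_left _ _
  refine ⟨1 / (2000 * A'), by positivity, ?_⟩
  intro C
  set M : ℝ := 10000 * (|C| + 1) with hM
  have hM0 : 0 < M := by positivity
  have hlogN : Tendsto (fun N : ℕ => Real.log (N : ℝ)) atTop atTop :=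
    Real.tendsto_log_atTop.comp tendsto_natCast_atTop_atTop
  -- eventual conditions on `u = log N`
  have hev1 := Pool.Agent.H466R2.LVLevel.exp_beats (1 / 1000) M (by norm_num) hM0
  have hev2 := (tendsto_atTop.1 Pool.Agent.H466R2.LVAsym.tendsto_div_log) 4000
  have hev3 : ∀ᶠ u : ℝ in atTop, 1 / 1000 * (2 / η) ≤ Real.log u :=
    Real.tendsto_log_atTop.eventually (eventually_ge_atTop _)
  have hev4 := eventually_ge_atTop (max 10 (8 / η))
  obtain ⟨N₂, hN₂⟩ := eventually_atTop.1 (hlogN.eventually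
    (hev1.and (hev2.and (hev3.and hev4))))
  refine ⟨max (max N₁ N₂) 2, ?_⟩
  intro N hN T hT1 hT2
  have hN2 : 2 ≤ N := le_trans (le_max_right _ _) hN
  have hNr : (2 : ℝ) ≤ N := by exact_mod_cast hN2
  obtain ⟨he1, he2, he3, he4⟩ := hN₂ N (le_trans (le_trans (le_max_right _ _) (le_max_left _ _)) hN)
  have hmain := hN₁ N (le_trans (le_trans (le_max_left _ _) (le_max_left _ _)) hN)
  set u := Real.log (N : ℝ) with hu
  have hu10 : 10 ≤ u := le_trans (le_max_left _ _) he4
  have huη : 8 / η ≤ u := le_trans (le_max_right _ _) he4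
  have hlogu1 : 1 ≤ Real.log u := by
    have h1 := Real.exp_one_lt_d9
    rw [Real.le_log_iff_exp_le (by linarith)]
    linarith
  set E := Real.exp (1 / 1000 * u / Real.log u) with hE
  have hE0 : 0 < E := Real.exp_pos _
  -- `E ≥ 32`
  have hE32 : 32 ≤ E := by
    have h1 : (4 : ℝ) ≤ 1 / 1000 * u / Real.log u := by
      have : 1 / 1000 * u / Real.log u = 1 / 1000 * (u / Real.log u) := by ring
      rw [this]
      linarith
    have h2 : Real.exp 4 ≤ E := Real.exp_le_exp.2 h1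
    have h3 : (32 : ℝ) ≤ Real.exp 4 := by
      have h4 := Real.exp_one_gt_d9
      have h5 : Real.exp 4 = Real.exp 1 ^ 4 := by
        rw [← Real.exp_nat_mul]; norm_num
      rw [h5]
      have h6 : (2.5 : ℝ) ≤ Real.exp 1 := by linarith
      calc (32 : ℝ) ≤ 2.5 ^ 4 := by norm_num
        _ ≤ _ := pow_le_pow_left₀ (by norm_num) h6 4
    linarith
  -- `E` beats `u²`
  have hEsq : M * u ^ 2 * Real.exp (1 / 1000 * u / (2 * Real.log u)) ≤ E := by
    have h1 : E = Real.exp (1 / 1000 * u / (2 * Real.log u)) *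
        Real.exp (1 / 1000 * u / (2 * Real.log u)) := by
      rw [← Real.exp_add, hE]
      congr 1
      field_simp
      ring
    rw [h1]
    exact mul_le_mul_of_nonneg_right he1 (Real.exp_pos _).le
  -- `25 E ≤ N^η`
  have hEη : 25 * E ≤ (N : ℝ) ^ η := by
    have h1 : 1 / 1000 * u / Real.log u ≤ η / 2 * u := by
      rw [div_le_iff₀ (by linarith)]
      have h2 : 1 / 1000 ≤ η / 2 * Real.log u := by
        rw [← div_le_iff₀' (by positivity)]
        calc 1 / 1000 / (η / 2) = 1 / 1000 * (2 / η) := by field_simp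
          _ ≤ _ := he3
      nlinarith
    have h3 : (25 : ℝ) ≤ Real.exp (η / 2 * u) := by
      have h4 : (4 : ℝ) ≤ η / 2 * u := by
        rw [div_le_iff₀ hη] at huη
        linarith
      have h5 : Real.exp 4 ≤ Real.exp (η / 2 * u) := Real.exp_le_exp.2 h4
      have h6 : (25 : ℝ) ≤ Real.exp 4 := by
        have h4 := Real.exp_one_gt_d9
        have h5 : Real.exp 4 = Real.exp 1 ^ 4 := by
          rw [← Real.exp_nat_mul]; norm_num
        rw [h5]
        have h6 : (2.5 : ℝ) ≤ Real.exp 1 := by linarith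
        calc (25 : ℝ) ≤ 2.5 ^ 4 := by norm_num
          _ ≤ _ := pow_le_pow_left₀ (by norm_num) h6 4
      linarith
    have h7 : E ≤ Real.exp (η / 2 * u) := Real.exp_le_exp.2 h1
    have h8 : (N : ℝ) ^ η = Real.exp (η / 2 * u) * Real.exp (η / 2 * u) := by
      rw [Real.rpow_def_of_pos (by linarith), ← Real.exp_add]
      congr 1
      rw [← hu]; ring
    rw [h8]
    exact mul_le_mul h3 h7 hE0.le (Real.exp_pos _).le
  -- `G(T) ≤ exp(u/(2000 log u))`
  set G := Real.exp (1 / (2000 * A') * Real.log T / Real.log (Real.log T)) with hG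
  have hTpos : 0 < T := lt_of_lt_of_le (Real.rpow_pos_of_pos (by linarith) _) hT1
  have hlogT1 : u ≤ Real.log T := by
    have h1 : Real.log ((N : ℝ) ^ (1 + η)) ≤ Real.log T :=
      Real.log_le_log (Real.rpow_pos_of_pos (by linarith) _) hT1
    rw [Real.log_rpow (by linarith), ← hu] at h1
    nlinarith
  have hlogT2 : Real.log T ≤ A' * u := by
    have h1 : Real.log T ≤ Real.log ((N : ℝ) ^ A) := Real.log_le_log hTpos hT2
    rw [Real.log_rpow (by linarith), ← hu] at h1
    nlinarith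
  have hGle : G ≤ Real.exp (1 / 1000 * u / (2 * Real.log u)) := by
    apply Real.exp_le_exp.2
    have h1 : Real.log u ≤ Real.log (Real.log T) := Real.log_le_log (by linarith) hlogT1
    have h2 : 1 / (2000 * A') * Real.log T ≤ 1 / 2000 * u := by
      rw [div_mul_eq_mul_div, one_mul, div_le_iff₀ (by positivity)]
      nlinarith
    calc 1 / (2000 * A') * Real.log T / Real.log (Real.log T)
        ≤ (1 / 2000 * u) / Real.log u := div_le_div₀ (by positivity) h2 (by linarith) h1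
      _ = 1 / 1000 * u / (2 * Real.log u) := by
          field_simp
          ring
  have hG0 : 0 < G := Real.exp_pos _
  have hMG : M * u ^ 2 * G ≤ E := by
    refine le_trans ?_ hEsq
    exact mul_le_mul_of_nonneg_left hGle (by positivity)
  -- choose L
  set L := ⌊E⌋₊ with hL
  have hL1 : 1 ≤ L := Nat.le_floor (by push_cast; linarith)
  have hLE : (L : ℝ) ≤ E := Nat.floor_le hE0.le
  have hLE2 : E / 2 ≤ L := by
    have := Nat.lt_floor_add_one E
    linarith
  obtain ⟨a, ha, S, hS1, hS2, hS3, hS4⟩ := hmain L hL1 hLE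
  set f : ℝ → ℝ := fun t => ‖∑ n ∈ Finset.Icc 1 N,
        a n * Complex.exp (Complex.I * (t : ℂ) * (Real.log (n : ℝ) : ℂ))‖ ^ 2 with hf
  set X : ℝ := E * (N : ℝ) ^ 2 / 512 with hX
  have hX0 : 0 < X := by positivity
  have hXle : X ≤ ∑ t ∈ S, f t := by
    refine le_trans ?_ hS4
    rw [hX]
    have : E / 2 * (N : ℝ) ^ 2 ≤ L * (N : ℝ) ^ 2 := mul_le_mul_of_nonneg_right hLE2 (by positivity)
    linarith
  set K := Nat.log 2 N + 1 with hK
  have hKN : (N : ℝ) < 2 ^ K := by
    have := Nat.lt_pow_succ_log_self (b := 2) (by norm_num) N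
    exact_mod_cast this
  have hKu : (K : ℝ) ≤ 2 * u := by
    have h1 : ((Nat.log 2 N : ℕ) : ℝ) ≤ Real.logb 2 N := by
      exact_mod_cast Real.natLog_le_logb N 2
    have h2 : Real.logb 2 N = u / Real.log 2 := rfl
    have h3 := Real.log_two_gt_d9
    have h4 : u / Real.log 2 ≤ 1.5 * u := by
      rw [div_le_iff₀ (by linarith)]
      have h5 : (1 : ℝ) ≤ 1.5 * Real.log 2 := by linarith
      calc u = u * 1 := by ring
        _ ≤ u * (1.5 * Real.log 2) := mul_le_mul_of_nonneg_left h5 (by linarith)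
        _ = 1.5 * u * Real.log 2 := by ring
    rw [hK]
    push_cast
    linarith
  have hSlam : (S.card : ℝ) * (N * E) ≤ X / 2 := by
    have h1 : (S.card : ℝ) * (N * E) ≤ (N / E ^ 2) * (N * E) :=
      mul_le_mul_of_nonneg_right hS3 (by positivity)
    have h2 : ((N : ℝ) / E ^ 2) * (N * E) = (N : ℝ) ^ 2 / E := by
      field_simp
    have h3 : (N : ℝ) ^ 2 / E ≤ X / 2 := by
      rw [hX, div_le_iff₀ hE0]
      have h6 : (1 : ℝ) ≤ E * E / 1024 := by
        have : (32 : ℝ) * 32 ≤ E * E := mul_le_mul hE32 hE32 (by norm_num) hE0.le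
        linarith
      have h4 : 0 ≤ (N : ℝ) ^ 2 := by positivity
      calc (N : ℝ) ^ 2 = (N : ℝ) ^ 2 * 1 := by ring
        _ ≤ (N : ℝ) ^ 2 * (E * E / 1024) := mul_le_mul_of_nonneg_left h6 h4
        _ = E * (N : ℝ) ^ 2 / 512 / 2 * E := by ring
    linarith
  have hB : ∀ t ∈ S, f t < (N * E) * 2 ^ K := by
    intro t _
    have h1 := Pool.Agent.H466R2.LVLevel.norm_D_le a ha N t
    have h2 : f t ≤ (N : ℝ) ^ 2 := pow_le_pow_left₀ (norm_nonneg _) h1 2
    have h3 : (N : ℝ) ^ 2 < N * E * 2 ^ K := by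
      have h4 : (N : ℝ) * N < N * 2 ^ K := mul_lt_mul_of_pos_left hKN (by linarith)
      have h5 : (N : ℝ) * 2 ^ K ≤ N * E * 2 ^ K := by
        apply mul_le_mul_of_nonneg_right _ (by positivity)
        exact le_mul_of_one_le_right (by linarith) (by linarith)
      calc (N : ℝ) ^ 2 = N * N := by ring
        _ < N * 2 ^ K := h4
        _ ≤ _ := h5
    exact lt_of_le_of_lt h2 h3
  obtain ⟨k, hk⟩ := Pool.Agent.H466R2.LVLevel.levels S f X (N * E) K (by positivity) hB hXle hSlam hX0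
  set W : ℝ := (N * E) * 2 ^ k with hW
  have hW0 : 0 < W := by positivity
  refine ⟨Real.sqrt W, fun n => (starRingEnd ℂ) (a n), S.filter (fun t => W ≤ f t),
    Real.sqrt_pos.2 hW0, ?_, ?_, ?_, ?_, ?_⟩
  · intro n
    rw [Complex.norm_conj]
    exact ha n
  · rw [Real.sq_sqrt hW0.le]
    have h1 : G ≤ E := by
      have h2 : 1 ≤ M * u ^ 2 := by
        have h3 : (1 : ℝ) ≤ M := by
          rw [hM]; have := abs_nonneg C; linarith
        have h4 : (1 : ℝ) ≤ u ^ 2 := one_le_pow₀ (by linarith)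
        exact one_le_mul_of_one_le_of_one_le h3 h4
      exact (le_mul_of_one_le_left hG0.le h2).trans hMG
    have h2 : (1 : ℝ) ≤ 2 ^ k := one_le_pow₀ (by norm_num)
    calc (N : ℝ) * G ≤ N * E := mul_le_mul_of_nonneg_left h1 (by linarith)
      _ ≤ N * E * 2 ^ k := le_mul_of_one_le_right (by positivity) h2
  · intro t ht
    rw [Finset.mem_filter] at ht
    obtain ⟨ht1, ht2⟩ := ht
    refine ⟨(hS1 t ht1).1, ?_, ?_⟩
    · refine (hS1 t ht1).2.trans (le_trans ?_ hT1)
      rw [Real.rpow_add (by linarith), Real.rpow_one]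
      have h1 : 25 * (L : ℝ) ≤ (N : ℝ) ^ η := le_trans (by linarith) hEη
      calc 25 * (L : ℝ) * N ≤ (N : ℝ) ^ η * N := mul_le_mul_of_nonneg_right h1 (by linarith)
        _ = N * (N : ℝ) ^ η := by ring
    · rw [Pool.Agent.H466R2.LVLevel.norm_sum_conj]
      apply Real.sqrt_le_iff.2
      exact ⟨norm_nonneg _, ht2⟩
  · intro t ht s hs hts
    exact hS2 t (Finset.mem_filter.1 ht).1 s (Finset.mem_filter.1 hs).1 hts
  · rw [Real.sq_sqrt hW0.le]
    set R : ℝ := ((S.filter (fun t => W ≤ f t)).card : ℝ) with hR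
    have hR0 : 0 ≤ R := Nat.cast_nonneg _
    have hk' : X / 2 ≤ K * (2 * W * R) := by
      have : (N * E) * 2 ^ (k + 1) = 2 * W := by rw [hW]; ring
      rw [this] at hk
      exact hk
    have h1 : X / 2 ≤ 2 * u * (2 * W * R) := by
      refine hk'.trans ?_
      exact mul_le_mul_of_nonneg_right hKu (by positivity)
    -- X = E N²/512, so E N² ≤ 4096 u W R
    have h2 : E * (N : ℝ) ^ 2 ≤ 4096 * u * W * R := by
      have h12 : E * (N : ℝ) ^ 2 = 1024 * (X / 2) := by rw [hX]; ring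
      have h13 : 4096 * u * W * R = 1024 * (2 * u * (2 * W * R)) := by ring
      rw [h12, h13]
      exact mul_le_mul_of_nonneg_left h1 (by norm_num)
    have h3 : C * (N : ℝ) ^ 2 / W * G = (C * (N : ℝ) ^ 2 * G) / W := by ring
    rw [h3, div_lt_iff₀ hW0]
    -- C N² G < R W
    have h4 : C * (N : ℝ) ^ 2 * G ≤ |C| * (N : ℝ) ^ 2 * G := by
      apply mul_le_mul_of_nonneg_right _ hG0.le
      exact mul_le_mul_of_nonneg_right (le_abs_self C) (by positivity)
    have h5 : M * u ^ 2 * G * (N : ℝ) ^ 2 ≤ 4096 * u * W * R :=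
      le_trans (mul_le_mul_of_nonneg_right hMG (by positivity)) h2
    have h6 : M * u * G * (N : ℝ) ^ 2 ≤ 4096 * W * R := by
      have hu0 : 0 < u := by linarith
      have h7 : u * (M * u * G * (N : ℝ) ^ 2) ≤ u * (4096 * W * R) := by
        calc u * (M * u * G * (N : ℝ) ^ 2) = M * u ^ 2 * G * (N : ℝ) ^ 2 := by ring
          _ ≤ 4096 * u * W * R := h5
          _ = u * (4096 * W * R) := by ring
      exact le_of_mul_le_mul_left h7 hu0
    have h8 : (|C| + 1) * (G * (N : ℝ) ^ 2) ≤ W * R := by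
      have hGN : 0 ≤ G * (N : ℝ) ^ 2 := by positivity
      have hC0 := abs_nonneg C
      have h9 : 4096 * ((|C| + 1) * (G * (N : ℝ) ^ 2)) ≤ M * u * G * (N : ℝ) ^ 2 := by
        have h10 : 0 ≤ (|C| + 1) * (G * (N : ℝ) ^ 2) := by positivity
        calc 4096 * ((|C| + 1) * (G * (N : ℝ) ^ 2))
            ≤ (10000 * u) * ((|C| + 1) * (G * (N : ℝ) ^ 2)) :=
              mul_le_mul_of_nonneg_right (by linarith) h10
          _ = M * u * G * (N : ℝ) ^ 2 := by rw [hM]; ring
      linarith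
    have h11 : 0 < G * (N : ℝ) ^ 2 := by positivity
    calc C * (N : ℝ) ^ 2 * G ≤ |C| * (N : ℝ) ^ 2 * G := h4
      _ = |C| * (G * (N : ℝ) ^ 2) := by ring
      _ < (|C| + 1) * (G * (N : ℝ) ^ 2) := by
          rw [add_mul]
          linarith
      _ ≤ W * R := h8
      _ = R * W := by ring

end Pool.Agent.Results.MP_a93a41_nt.SharpLoss
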